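import Pool.Agent.Lib.MP_78d2e3_co.Pack

namespace Pool.Agent.Results.MP_78d2e3_co.CoverByEight

open Pool.Agent.HoSi

theorem result :
    ∃ H : Fin 8 → SimpleGraph (Fin 50), (∀ t, Nonempty (H t ≃g HS)) ∧
      ∀ u v : Fin 50, u ≠ v → ∃ t, (H t).Adj u v :=
  cover8

end Pool.Agent.Results.MP_78d2e3_co.CoverByEight
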