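import Pool.Agent.Lib.MP_78d2e3_co.Pack

namespace Pool.Agent.Results.MP_78d2e3_co.Multigraph

open Pool.Agent.HoSi

theorem result : ∀ lam : ℕ, 2 ≤ lam →
    ∃ H : Fin (7 * lam) → SimpleGraph (Fin 50), (∀ t, Nonempty (H t ≃g HS)) ∧
      ∀ u v : Fin 50, u ≠ v → {t | (H t).Adj u v}.ncard = lam :=
  multi

end Pool.Agent.Results.MP_78d2e3_co.Multigraph
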